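import Pool.Agent.N554.HKS.Def

set_option autoImplicit false

namespace Pool.Agent.N554.HKS

/-! ### Elementary facts on segments -/

lemma seg_length {A : Type*} (u : ℕ → A) (i n : ℕ) : (seg u i n).length = n := by
  simp [seg]

lemma seg_getElem {A : Type*} (u : ℕ → A) (i n j : ℕ) (h : j < (seg u i n).length) :
    (seg u i n)[j] = u (i + j) := by
  simp [seg]

lemma seg_append {A : Type*} (u : ℕ → A) (i a b : ℕ) :
    seg u i (a + b) = seg u i a ++ seg u (i + a) b := by
  apply List.ext_getElem
  · simp [seg_length]
  · intro j h1 h2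
    rw [seg_getElem]
    by_cases hj : j < a
    · rw [List.getElem_append_left (by simpa [seg_length] using hj), seg_getElem]
    · rw [List.getElem_append_right (by simp [seg_length]; omega), seg_getElem]
      simp only [seg_length]
      congr 1
      omega

lemma seg_map {A B : Type*} (e : A → B) (v : ℕ → A) (i n : ℕ) :
    (seg v i n).map e = seg (e ∘ v) i n := by
  simp [seg, List.map_map, Function.comp_def]

lemma mem_Lang_of_append {A : Type*} {u : ℕ → A} {x y z : List A} {i n : ℕ}
    (h : seg u i n = x ++ y ++ z) : y ∈ Lang u := by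
  refine ⟨i + x.length, ?_⟩
  have hn : n = x.length + (y.length + z.length) := by
    have := congrArg List.length h
    simp [seg_length] at this
    omega
  subst hn
  rw [seg_append, seg_append, List.append_assoc] at h
  have h1 := List.append_inj h (by simp [seg_length])
  have h2 := List.append_inj h1.2 (by simp [seg_length])
  exact h2.1.symm

lemma ext_append {A B : Type*} (f : A → List B) (x y : List A) :
    ext f (x ++ y) = ext f x ++ ext f y := by
  simp [ext]

/-! ### All squares of `w` -/

theorem sq_parity (h1 : S1) (h2 : S2) (h3 : S3) :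
    ∀ n i, Sq i n → par (seg w i n) = v0 ∨ par (seg w i n) = v1 := by
  intro n
  induction n using Nat.strong_induction_on with
  | _ n ih =>
    intro i hsq
    by_cases hm : ∃ j, j < n ∧ w (i + j) = 5
    · obtain ⟨n', k, hn, hk, hp⟩ := h2 i n hsq hm
      have hlt : n' < n := by
        have := hk.1
        omega
      right
      rw [hp]
      exact h3 _ (ih n' hlt k hk)
    · left
      push Not at hm
      exact h1 i n hsq hm

theorem sq_lang (h1 : S1) (h2 : S2) (h3 : S3) (s : List (Fin 6)) (hs : s ≠ [])
    (h : s ++ s ∈ Lang w) : par s = v0 ∨ par s = v1 := by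
  obtain ⟨i, hi⟩ := h
  set n := s.length with hn
  have hlen : (s ++ s).length = n + n := by simp [hn]
  rw [hlen, seg_append] at hi
  have h4 := List.append_inj hi (by simp [seg_length, hn])
  have hsq : Sq i n := by
    refine ⟨List.length_pos_iff.mpr hs, ?_⟩
    intro j hj
    have e1 : (seg w i n)[j]'(by simpa [seg_length] using hj)
        = (seg w (i + n) n)[j]'(by simpa [seg_length] using hj) := by
      have h5 : seg w i n = seg w (i + n) n := h4.1.symm.trans h4.2
      exact getElem_congr_coll h5
    rw [seg_getElem, seg_getElem] at e1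
    rw [e1]
    congr 1
    omega
  have := sq_parity h1 h2 h3 n i hsq
  rwa [← h4.1] at this

/-! ### No morphism of class `P` -/

lemma iter_nil {A : Type*} (ψ : A → List A) (k : ℕ) : (ext ψ)^[k] [] = [] := by
  induction k with
  | zero => rfl
  | succ k ih =>
    rw [Function.iterate_succ_apply]
    simpa [ext] using ih

lemma iter_fix {A : Type*} (ψ : A → List A) (x : A) (hx : ψ x = [x]) (k : ℕ) :
    (ext ψ)^[k] [x] = [x] := by
  induction k with
  | zero => rfl
  | succ k ih =>
    rw [Function.iterate_succ_apply]
    simpa [ext, hx] using ih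

theorem core (h1 : S1) (h2 : S2) (h3 : S3) (hT : TR) (hP : PP)
    (B : Type) (e : B → Fin 7) (he : Function.Injective e) (ψ : B → List B) (v : ℕ → B)
    (hprim : Primitive ψ) (hfix : FixedPoint ψ v) (hL : Lang (e ∘ v) = Lang u)
    (h00 : [(0 : Fin 7), 0] ∈ Lang u) (h6 : [(6 : Fin 7)] ∈ Lang u) :
    ∃ x : B, ∀ p q : List B, p.reverse = p → q.reverse = q → ¬ (ψ x).Perm (p ++ q) := by
  classical
  rw [← hL] at h00 h6
  obtain ⟨i, hi⟩ := h00
  obtain ⟨i6, hi6⟩ := h6
  have hi' : [(0 : Fin 7), 0] = [e (v i), e (v (i + 1))] := by
    simpa [seg, List.range_succ] using hi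
  have hi6' : (6 : Fin 7) = e (v i6) := by
    simpa [seg, List.range_succ] using hi6
  have hx0 : e (v i) = 0 := by
    have := congrArg (fun l => l.head?) hi'
    simpa using this.symm
  have hx1 : e (v (i + 1)) = 0 := by
    have := congrArg (fun l => l.getLast?) hi'
    simpa using this.symm
  have hxx : v (i + 1) = v i := he (hx1.trans hx0.symm)
  set x : B := v i with hxdef
  obtain ⟨k, hk, hprim'⟩ := hprim
  refine ⟨x, ?_⟩
  intro p q hp hq hperm
  -- the square
  obtain ⟨m, hm⟩ := hfix (i + 2)
  have hseg : seg v 0 (i + 2) = seg v 0 i ++ [x, x] := by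
    rw [seg_append]
    congr 1
    simp [seg, List.range_succ, hxx, ← hxdef]
  rw [hseg, ext_append] at hm
  have hxx2 : ext ψ [x, x] = ψ x ++ ψ x := by simp [ext]
  rw [hxx2] at hm
  have hsqv : (ψ x).map e ++ (ψ x).map e ∈ Lang u := by
    rw [← hL]
    have h := congrArg (List.map e) hm
    rw [seg_map, List.map_append, List.map_append] at h
    apply mem_Lang_of_append (x := (ext ψ (seg v 0 i)).map e) (z := []) (i := 0) (n := m)
    rw [← h]
    simp
  have hne : ψ x ≠ [] := by
    intro h0
    obtain ⟨k', rfl⟩ : ∃ k', k = k' + 1 := ⟨k - 1, by omega⟩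
    have := hprim' x x
    rw [Function.iterate_succ_apply] at this
    have h1 : ext ψ [x] = [] := by simp [ext, h0]
    rw [h1, iter_nil] at this
    simp at this
  have hrne : (ψ x).map e ≠ [] := by simpa using hne
  rcases hT _ hrne hsqv with h0 | ⟨s, hs, hss, hcount⟩
  · -- `ψ x = [x]`
    have hlen : (ψ x).length = 1 := by
      have := congrArg List.length h0
      simpa using this
    obtain ⟨y, hy⟩ := List.length_eq_one_iff.mp hlen
    rw [hy] at h0
    have hy0 : e y = 0 := by simpa using h0
    have hyx : y = x := he (hy0.trans hx0.symm)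
    rw [hyx] at hy
    have hmem := hprim' x (v i6)
    rw [iter_fix ψ x hy] at hmem
    have : v i6 = x := by simpa using hmem
    rw [this, hx0] at hi6'
    exact absurd hi6' (by decide)
  · have hpar := sq_lang h1 h2 h3 s hs hss
    have hpe : (p.map e).reverse = p.map e := by rw [← List.map_reverse, hp]
    have hqe : (q.map e).reverse = q.map e := by rw [← List.map_reverse, hq]
    have hperm' : ((ψ x).map e).Perm (p.map e ++ q.map e) := by
      rw [← List.map_append]
      exact hperm.map e
    have hc : ∀ c : Fin 7, ((ψ x).map e).count c = (p.map e).count c + (q.map e).count c := by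
      intro c
      rw [hperm'.count_eq, List.count_append]
    have hodd : ∀ y : Fin 6, y ≠ 0 → par s y = 1 →
        Odd ((p.map e).count y.castSucc + (q.map e).count y.castSucc) := by
      intro y hy hpy
      rw [← hc, hcount y hy]
      have : ((s.count y : ℕ) : ZMod 2) = 1 := hpy
      exact (ZMod.natCast_eq_one_iff_odd).mp this
    -- three distinct letters
    have key : ∀ c c' c'' : Fin 7, c ≠ c' → c ≠ c'' → c' ≠ c'' →
        Odd ((p.map e).count c + (q.map e).count c) →
        Odd ((p.map e).count c' + (q.map e).count c') →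
        Odd ((p.map e).count c'' + (q.map e).count c'') → False := by
      intro c c' c'' h12 h13 h23 o1 o2 o3
      have P := hP (Fin 7) inferInstance (p.map e) hpe
      have Q := hP (Fin 7) inferInstance (q.map e) hqe
      have f : ∀ a b : ℕ, Odd (a + b) → Odd a ∨ Odd b := by
        intro a b h
        by_contra hcon
        push Not at hcon
        rw [Nat.not_odd_iff_even, Nat.not_odd_iff_even] at hcon
        exact (Nat.not_odd_iff_even.mpr (hcon.1.add hcon.2)) h
      rcases f _ _ o1 with a1 | a1 <;> rcases f _ _ o2 with a2 | a2 <;>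
        rcases f _ _ o3 with a3 | a3
      · exact P _ _ h12 a1 a2
      · exact P _ _ h12 a1 a2
      · exact P _ _ h13 a1 a3
      · exact Q _ _ h23 a2 a3
      · exact P _ _ h23 a2 a3
      · exact Q _ _ h13 a1 a3
      · exact Q _ _ h12 a1 a2
      · exact Q _ _ h12 a1 a2
    rcases hpar with hv | hv
    · exact key _ _ _ (by decide) (by decide) (by decide)
        (hodd 1 (by decide) (by rw [hv]; rfl)) (hodd 2 (by decide) (by rw [hv]; rfl))
        (hodd 3 (by decide) (by rw [hv]; rfl))
    · exact key _ _ _ (by decide) (by decide) (by decide)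
        (hodd 4 (by decide) (by rw [hv]; rfl)) (hodd 2 (by decide) (by rw [hv]; rfl))
        (hodd 3 (by decide) (by rw [hv]; rfl))

end Pool.Agent.N554.HKS
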