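import Mathlib

/-!
# Palindromes in fixed points of primitive morphisms (Hof–Knill–Simon): definitions

Words are lists, infinite words are functions on the natural numbers, and a morphism of free
monoids is given by the images of the letters.
-/

set_option autoImplicit false

namespace Pool.Agent.N554.HKS

/-- The extension of `f : A → List B` to a morphism of free monoids. -/
def ext {A B : Type*} (f : A → List B) (w : List A) : List B := w.flatMap f

/-- The factor of length `n` of the infinite word `u` starting at position `i`. -/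
def seg {A : Type*} (u : ℕ → A) (i n : ℕ) : List A := (List.range n).map fun j => u (i + j)

/-- The language of an infinite word: the set of its finite factors. -/
def Lang {A : Type*} (u : ℕ → A) : Set (List A) := {v | ∃ i, v = seg u i v.length}

/-- `u` is a fixed point of the morphism `φ`, i.e. `φ(u) = u`: the image of every prefix of `u` is
a prefix of `u`. (Primitive morphisms are non-erasing, so these images exhaust `u`.) -/
def FixedPoint {A : Type*} (φ : A → List A) (u : ℕ → A) : Prop :=
  ∀ n, ∃ m, ext φ (seg u 0 n) = seg u 0 m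

/-- Primitive morphisms: some power `φ^k`, `k ≥ 1`, maps each letter to a word containing every
letter. -/
def Primitive {A : Type*} (φ : A → List A) : Prop :=
  ∃ k : ℕ, 1 ≤ k ∧ ∀ a b : A, b ∈ (ext φ)^[k] [a]

/-- Class `P`: primitive morphisms with `φ(a) = p q_a`, with `p` and all `q_a` palindromes. -/
def ClassP {A : Type*} (φ : A → List A) : Prop :=
  Primitive φ ∧ ∃ p : List A, p.reverse = p ∧ ∀ a : A, ∃ q : List A, q.reverse = q ∧ φ a = p ++ q

/-- The image of an infinite word under a non-erasing morphism. -/
def img {A B : Type*} [Inhabited B] (f : A → List B) (w : ℕ → A) : ℕ → B :=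
  fun n => (ext f (seg w 0 (n + 1))).getD n default

/-! ### The data of the counterexample -/

/-- `β = 1 2 3 2 X 2 1 2 3`, with `X = 0`. -/
def beta : List (Fin 6) := [1, 2, 3, 2, 0, 2, 1, 2, 3]

/-- The palindromes `μ_y`. -/
def mu : Fin 6 → List (Fin 6) :=
  ![[2, 0, 2], [3, 4, 3], [3, 2, 3], [4, 3, 4], [2, 4, 2], [4, 2, 4]]

/-- The uniform morphism `θ(y) = β m β~ μ_y` of length `22`, with `m = 5`. -/
def theta (y : Fin 6) : List (Fin 6) := beta ++ [5] ++ beta.reverse ++ mu y

/-- The `j`-th letter of `θ(y)`. -/
def T (y : Fin 6) (j : ℕ) : Fin 6 := (theta y).getD j 0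

/-- The fixed point of `θ` starting with `1`. -/
def w : ℕ → Fin 6
  | 0 => 1
  | (n + 1) => T (w ((n + 1) / 22)) ((n + 1) % 22)
decreasing_by exact Nat.div_lt_self (Nat.succ_pos n) (by norm_num)

/-- `σ(X) = b a a` and `σ(y) = b y` for the other letters (`X = 0`, `a = 0`, `b = 6`). -/
def sigma (y : Fin 6) : List (Fin 7) := if y = 0 then [6, 0, 0] else [6, y.castSucc]

/-- The words `G_x`, with `θ = G ∘ σ`. -/
def G : Fin 7 → List (Fin 6) :=
  ![[3, 2, 1, 2, 0, 2], beta.reverse ++ mu 1, beta.reverse ++ mu 2, beta.reverse ++ mu 3,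
    beta.reverse ++ mu 4, beta.reverse ++ mu 5, beta ++ [5]]

/-- The morphism of the counterexample. -/
def phi (x : Fin 7) : List (Fin 7) := ext sigma (G x)

/-- The fixed point of the counterexample. -/
def u : ℕ → Fin 7 := img sigma w

/-- The parity vector of a word over the six letters. -/
def par (s : List (Fin 6)) : Fin 6 → ZMod 2 := fun y => (s.count y : ZMod 2)

def v0 : Fin 6 → ZMod 2 := ![1, 1, 1, 1, 0, 0]

def v1 : Fin 6 → ZMod 2 := ![1, 0, 1, 1, 1, 0]

/-- A square of period `n` at position `i` of `w`. -/
def Sq (i n : ℕ) : Prop := 0 < n ∧ ∀ j, j < n → w (i + j) = w (i + j + n)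

/-! ### The statements of the leaves -/

/-- Images of infinite words under non-erasing morphisms. -/
def IMG : Prop :=
  ∀ (A B : Type) (_ : Inhabited B) (f : A → List B) (_ : ∀ a, f a ≠ []) (w : ℕ → A) (N : ℕ),
    seg (img f w) 0 (ext f (seg w 0 N)).length = ext f (seg w 0 N)

/-- The structure of `w`. -/
def WST : Prop := (∀ i j, j < 22 → w (22 * i + j) = T (w i) j) ∧
  ∀ i N, seg w (22 * i) (22 * N) = ext theta (seg w i N)

/-- Squares without the letter `m = 5`. -/
def S1 : Prop := ∀ i n, Sq i n → (∀ j, j < n → w (i + j) ≠ 5) → par (seg w i n) = v0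

/-- Squares with the letter `m = 5`: the period is `22 n'`, and they come from a square with
period `n'`. -/
def S2 : Prop := ∀ i n, Sq i n → (∃ j, j < n ∧ w (i + j) = 5) →
  ∃ n' k, n = 22 * n' ∧ Sq k n' ∧ par (seg w i n) = par (ext theta (seg w k n'))

/-- The parity of images. -/
def S3 : Prop := ∀ s : List (Fin 6), (par s = v0 ∨ par s = v1) → par (ext theta s) = v1

/-- From squares in `u` to squares in `w`. -/
def TR : Prop := ∀ r : List (Fin 7), r ≠ [] → r ++ r ∈ Lang u → r = [0] ∨
  ∃ s : List (Fin 6), s ≠ [] ∧ s ++ s ∈ Lang w ∧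
    ∀ y : Fin 6, y ≠ 0 → r.count y.castSucc = s.count y

/-- `u` is a fixed point of the primitive morphism `phi`. -/
def FP : Prop := Primitive phi ∧ FixedPoint phi u

/-- The language of `u` contains infinitely many palindromes. -/
def PAL : Prop := {v : List (Fin 7) | v ∈ Lang u ∧ v.reverse = v}.Infinite

/-- Palindromes have at most one letter with an odd number of occurrences. -/
def PP : Prop := ∀ (A : Type) (_ : DecidableEq A) (p : List A), p.reverse = p →
  ∀ a b : A, a ≠ b → Odd (p.count a) → Odd (p.count b) → False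

end Pool.Agent.N554.HKS
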