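import Pool.Agent.N554.HKS.Main
import Pool.Agent.N935.HKS.Img
import Pool.Agent.N814.HKS.WST

set_option autoImplicit false

namespace Pool.Agent.N554.HKS

/-! ### Letters and the square `00` of `u` -/

lemma seg_u_start : seg u 0 11 = [6, 1, 6, 2, 6, 3, 6, 2, 6, 0, 0] := by
  have hw : seg w 0 5 = [1, 2, 3, 2, 0] := by
    have h := (N814.HKS.WST_proof).1 0
    have h0 : w 0 = 1 := N814.HKS.w_zero
    have h1 : w 1 = 2 := by have := h 1 (by norm_num); rw [h0] at this; exact this.trans (by decide)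
    have h2 : w 2 = 3 := by have := h 2 (by norm_num); rw [h0] at this; exact this.trans (by decide)
    have h3 : w 3 = 2 := by have := h 3 (by norm_num); rw [h0] at this; exact this.trans (by decide)
    have h4 : w 4 = 0 := by have := h 4 (by norm_num); rw [h0] at this; exact this.trans (by decide)
    simp [seg, List.range_succ, h0, h1, h2, h3, h4]
  have h := N935.HKS.IMG_proof (Fin 6) (Fin 7) inferInstance sigma (by decide) w 5
  rw [hw] at h
  exact h

lemma h00 : [(0 : Fin 7), 0] ∈ Lang u := by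
  apply mem_Lang_of_append (x := [6, 1, 6, 2, 6, 3, 6, 2, 6]) (z := []) (i := 0) (n := 11)
  rw [seg_u_start]
  rfl

lemma h6 : [(6 : Fin 7)] ∈ Lang u := by
  apply mem_Lang_of_append (x := []) (z := [1, 6, 2, 6, 3, 6, 2, 6, 0, 0]) (i := 0) (n := 11)
  rw [seg_u_start]
  rfl

/-! ### Changing the alphabet -/

lemma map_mem_Lang {A C : Type*} (g : A → C) (hg : Function.Injective g) (x : ℕ → A)
    (s : List A) : s.map g ∈ Lang (g ∘ x) ↔ s ∈ Lang x := by
  constructor
  · rintro ⟨i, hi⟩
    refine ⟨i, ?_⟩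
    rw [List.length_map, ← seg_map] at hi
    exact (List.map_injective_iff.mpr hg) hi
  · rintro ⟨i, hi⟩
    refine ⟨i, ?_⟩
    rw [List.length_map, ← seg_map, ← hi]

lemma iter_prefix {A : Type*} (ψ : A → List A) (v : ℕ → A) (hfix : FixedPoint ψ v) (k n : ℕ) :
    ∃ m, (ext ψ)^[k] (seg v 0 n) = seg v 0 m := by
  induction k generalizing n with
  | zero => exact ⟨n, rfl⟩
  | succ k ih =>
    obtain ⟨m, hm⟩ := hfix n
    rw [Function.iterate_succ_apply, hm]
    exact ih m

lemma occurs {A : Type*} (ψ : A → List A) (v : ℕ → A) (hfix : FixedPoint ψ v)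
    (hprim : Primitive ψ) (b : A) : ∃ j, v j = b := by
  obtain ⟨k, -, hk⟩ := hprim
  have h := hk (v 0) b
  obtain ⟨m, hm⟩ := iter_prefix ψ v hfix k 1
  have h1 : seg v 0 1 = [v 0] := by simp [seg]
  rw [h1] at hm
  rw [hm] at h
  simp only [seg, List.mem_map, List.mem_range] at h
  obtain ⟨j, -, hj⟩ := h
  exact ⟨0 + j, hj⟩

theorem any_alphabet (h1 : S1) (h2 : S2) (h3 : S3) (hT : TR) (hP : PP)
    (B C : Type) (g : Fin 7 → C) (hg : Function.Injective g) (e : B → C)
    (he : Function.Injective e) (ψ : B → List B) (v : ℕ → B)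
    (hprim : Primitive ψ) (hfix : FixedPoint ψ v) (hL : Lang (e ∘ v) = Lang (g ∘ u)) :
    ∃ x : B, ∀ p q : List B, p.reverse = p → q.reverse = q → ¬ (ψ x).Perm (p ++ q) := by
  have hf : ∀ b : B, ∃ c : Fin 7, g c = e b := by
    intro b
    obtain ⟨j, hj⟩ := occurs ψ v hfix hprim b
    have h : [e b] ∈ Lang (e ∘ v) := ⟨j, by simp [seg, hj]⟩
    rw [hL] at h
    obtain ⟨i, hi⟩ := h
    refine ⟨u i, ?_⟩
    simpa [seg] using hi.symm
  choose f hf using hf
  have hfi : Function.Injective f := by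
    intro a b hab
    apply he
    rw [← hf a, ← hf b, hab]
  have hgf : g ∘ (f ∘ v) = e ∘ v := by
    funext n
    exact hf (v n)
  have hL' : Lang (f ∘ v) = Lang u := by
    ext s
    rw [← map_mem_Lang g hg (f ∘ v), ← map_mem_Lang g hg u, hgf, hL]
  exact core h1 h2 h3 hT hP B f hfi ψ v hprim hfix hL' h00 h6

/-! ### Morphisms that preserve the language -/

theorem core_pres (h1 : S1) (h2 : S2) (h3 : S3) (hT : TR) (hP : PP)
    (ψ : Fin 7 → List (Fin 7)) (hpres : ∀ s ∈ Lang u, ext ψ s ∈ Lang u)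
    (hne : ψ 0 ≠ []) (hne' : ψ 0 ≠ [0]) (p q : List (Fin 7)) (hp : p.reverse = p)
    (hq : q.reverse = q) : ¬ (ψ 0).Perm (p ++ q) := by
  intro hperm
  have hsq : ψ 0 ++ ψ 0 ∈ Lang u := by
    have h := hpres _ h00
    simpa [ext] using h
  rcases hT _ hne hsq with h0 | ⟨s, hs, hss, hcount⟩
  · exact hne' h0
  have hpar := sq_lang h1 h2 h3 s hs hss
  have hc : ∀ c : Fin 7, (ψ 0).count c = p.count c + q.count c := by
    intro c
    rw [hperm.count_eq, List.count_append]
  have hodd : ∀ y : Fin 6, y ≠ 0 → par s y = 1 →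
      Odd (p.count y.castSucc + q.count y.castSucc) := by
    intro y hy hpy
    rw [← hc, hcount y hy]
    have : ((s.count y : ℕ) : ZMod 2) = 1 := hpy
    exact (ZMod.natCast_eq_one_iff_odd).mp this
  have key : ∀ c c' c'' : Fin 7, c ≠ c' → c ≠ c'' → c' ≠ c'' →
      Odd (p.count c + q.count c) → Odd (p.count c' + q.count c') →
      Odd (p.count c'' + q.count c'') → False := by
    intro c c' c'' h12 h13 h23 o1 o2 o3
    have P := hP (Fin 7) inferInstance p hp
    have Q := hP (Fin 7) inferInstance q hq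
    have f : ∀ a b : ℕ, Odd (a + b) → Odd a ∨ Odd b := by
      intro a b h
      by_contra hcon
      push Not at hcon
      rw [Nat.not_odd_iff_even, Nat.not_odd_iff_even] at hcon
      exact (Nat.not_odd_iff_even.mpr (hcon.1.add hcon.2)) h
    rcases f _ _ o1 with a1 | a1 <;> rcases f _ _ o2 with a2 | a2 <;>
      rcases f _ _ o3 with a3 | a3
    · exact P _ _ h12 a1 a2
    · exact P _ _ h12 a1 a2
    · exact P _ _ h13 a1 a3
    · exact Q _ _ h23 a2 a3
    · exact P _ _ h23 a2 a3
    · exact Q _ _ h13 a1 a3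
    · exact Q _ _ h12 a1 a2
    · exact Q _ _ h12 a1 a2
  rcases hpar with hv | hv
  · exact key _ _ _ (by decide) (by decide) (by decide)
      (hodd 1 (by decide) (by rw [hv]; rfl)) (hodd 2 (by decide) (by rw [hv]; rfl))
      (hodd 3 (by decide) (by rw [hv]; rfl))
  · exact key _ _ _ (by decide) (by decide) (by decide)
      (hodd 4 (by decide) (by rw [hv]; rfl)) (hodd 2 (by decide) (by rw [hv]; rfl))
      (hodd 3 (by decide) (by rw [hv]; rfl))

end Pool.Agent.N554.HKS
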